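import Pool.Agent.Helper450.Kneser

set_option autoImplicit false

/-!
Restricted sumsets in finite abelian groups of exponent three: the case of a set `B ⊆ A` such that
`a + a' + b = 0` with `a, a' ∈ A`, `b ∈ B` only for `a = a' = b`.
-/

namespace Pool.Agent.Q114.RS

open Finset
open scoped Pointwise
open Pool.Agent.Helper450.Kneser (fs mem_fs fs_nonempty stab kneser')

variable {G : Type} [AddCommGroup G] [DecidableEq G]

/-- The restricted sumset: all `a + b` with `a ∈ A`, `b ∈ B`, `a ≠ b`. -/
def rsum (A B : Finset G) : Finset G :=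
  ((A ×ˢ B).filter fun p => p.1 ≠ p.2).image fun p => p.1 + p.2

theorem mem_rsum {A B : Finset G} {x : G} :
    x ∈ rsum A B ↔ ∃ a ∈ A, ∃ b ∈ B, a ≠ b ∧ a + b = x := by
  unfold rsum
  simp only [mem_image, mem_filter, mem_product, Prod.exists]
  constructor
  · rintro ⟨a, b, ⟨⟨ha, hb⟩, hne⟩, rfl⟩
    exact ⟨a, ha, b, hb, hne, rfl⟩
  · rintro ⟨a, ha, b, hb, hne, rfl⟩
    exact ⟨a, b, ⟨⟨ha, hb⟩, hne⟩, rfl⟩

section fin

variable [Fintype G]

/-- Every element of `A` in the coset of `b ∈ B` other than `b` has its mirror image outside `A`. -/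
theorem two_mul_card_le (h3 : ∀ x : G, x + x + x = 0) {A : Finset G} {b : G}
    (hA : ∀ a ∈ A, ∀ a' ∈ A, a + a' + b = 0 → a = b) (H : AddSubgroup G) {A' : Finset G}
    (hA' : A' ⊆ A) (hb : b ∈ A') : 2 * A'.card + (fs H).card ≤ 2 * (A' + fs H).card + 1 := by
  classical
  -- the coset
  let C : Finset G := (fs H).image (fun x => b + x)
  have hC : C.card = (fs H).card := card_image_of_injective _ (add_right_injective b)
  have hCs : C ⊆ A' + fs H := by
    intro x hx
    obtain ⟨y, hy, rfl⟩ := mem_image.1 hx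
    exact add_mem_add hb hy
  have hAs : A' ⊆ A' + fs H := by
    intro x hx
    have := add_mem_add hx (mem_fs.2 H.zero_mem)
    rwa [add_zero] at this
  -- the mirror image
  have hmir : ((A' ∩ C).erase b).card ≤ (C \ A').card := by
    refine card_le_card_of_injOn (fun x => -b - x) ?_ ?_
    · intro x hx
      rw [mem_coe, mem_erase, mem_inter] at hx
      obtain ⟨hxb, hxA, hxC⟩ := hx
      rw [mem_coe, mem_sdiff]
      refine ⟨?_, fun hcon => ?_⟩
      rotate_left
      · have h0 : x + (-b - x) + b = 0 := by abel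
        exact hxb (hA x (hA' hxA) (-b - x) (hA' hcon) h0)
      obtain ⟨y, hy, rfl⟩ := mem_image.1 hxC
      refine mem_image.2 ⟨-y, mem_fs.2 (H.neg_mem (mem_fs.1 hy)), ?_⟩
      have : b + -y - (-b - (b + y)) = 0 := by
        have h := h3 b
        calc b + -y - (-b - (b + y)) = b + b + b := by abel
          _ = 0 := h
      exact sub_eq_zero.1 this
    · intro x _ y _ hxy
      simpa using hxy
  have h1 : (A' ∩ C).card ≤ (C \ A').card + 1 := by
    have := card_erase_add_one (s := A' ∩ C) (a := b) (mem_inter.2 ⟨hb, mem_image.2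
      ⟨0, mem_fs.2 H.zero_mem, add_zero b⟩⟩)
    omega
  have h2 : (A' ∩ C).card + (C \ A').card = C.card := by
    rw [inter_comm]
    exact card_inter_add_card_sdiff C A'
  have h3' : A'.card + (C \ A').card ≤ (A' + fs H).card := by
    rw [← card_union_of_disjoint disjoint_sdiff]
    exact card_le_card (union_subset hAs (sdiff_subset.trans hCs))
  omega

/-- Kneser's theorem without loss for two parts of `A` and `B` which both meet `B`. -/
theorem part (h3 : ∀ x : G, x + x + x = 0) {A B : Finset G} (hBA : B ⊆ A)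
    (hA : ∀ a ∈ A, ∀ a' ∈ A, ∀ b ∈ B, a + a' + b = 0 → a = b)
    {A' B' : Finset G} (hA' : A' ⊆ A) (hB' : B' ⊆ B) {b₁ b₂ : G} (h1 : b₁ ∈ A') (h1' : b₁ ∈ B)
    (h2 : b₂ ∈ B') : A'.card + B'.card ≤ (A' + B').card + 1 := by
  have hk := kneser' A' B' ⟨b₁, h1⟩ ⟨b₂, h2⟩
  have e1 := two_mul_card_le h3 (fun a ha a' ha' h => hA a ha a' ha' b₁ h1' h)
    (stab (A' + B')) hA' h1
  have e2 := two_mul_card_le h3 (fun a ha a' ha' h => hA a ha a' ha' b₂ (hB' h2) h)
    (stab (A' + B')) (hB'.trans hBA) h2
  omega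

omit [DecidableEq G] [Fintype G] in
/-- A linear functional which takes all three values on `0, e₁, e₂`. -/
theorem exists_functional (h3 : ∀ x : G, x + x + x = 0) {e₁ e₂ : G} (h1 : e₁ ≠ 0) (h2 : e₂ ≠ 0)
    (h12 : e₁ ≠ e₂) :
    ∃ f : G →+ ZMod 3, f e₁ ≠ 0 ∧ f e₂ = - f e₁ := by
  let _ : Module (ZMod 3) G := AddCommGroup.zmodModule (n := 3) (fun x => by
    rw [← h3 x, succ_nsmul, two_nsmul])
  have hx : e₁ ∉ Submodule.span (ZMod 3) {e₁ + e₂} := by
    intro h
    obtain ⟨c, hc⟩ := Submodule.mem_span_singleton.1 h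
    have h30 : (3 : ZMod 3) = 0 := rfl
    have hcc : ∀ c : ZMod 3, c = 0 ∨ c = 1 ∨ c = 2 := by decide
    rcases hcc c with rfl | rfl | rfl
    · rw [zero_smul] at hc
      exact h1 hc.symm
    · rw [one_smul] at hc
      exact h2 (by simpa using hc)
    · have h4 : e₁ + e₂ + e₂ = 0 := by
        have : (2 : ZMod 3) • (e₁ + e₂) = e₁ + e₂ + (e₁ + e₂) := two_smul _ _
        rw [this] at hc
        have h5 : e₁ + (e₁ + e₂ + e₂) = e₁ + 0 := by
          rw [add_zero]
          calc e₁ + (e₁ + e₂ + e₂) = e₁ + e₂ + (e₁ + e₂) := by abel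
            _ = e₁ := hc
        exact add_left_cancel h5
      refine h12 ?_
      have h6 : e₁ + e₂ + e₂ = e₂ + e₂ + e₂ := by rw [h4, h3 e₂]
      have h7 : e₁ + (e₂ + e₂) = e₂ + (e₂ + e₂) := by rw [← add_assoc, ← add_assoc]; exact h6
      exact add_right_cancel h7
  obtain ⟨f, hf, hp⟩ := Submodule.exists_le_ker_of_notMem hx
  refine ⟨f.toAddMonoidHom, hf, ?_⟩
  have h0 : f (e₁ + e₂) = 0 := hp (Submodule.mem_span_singleton_self _)
  rw [map_add] at h0
  show f e₂ = - f e₁
  rw [eq_neg_iff_add_eq_zero, add_comm]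
  exact h0

/-- The special case. -/
theorem special (h3 : ∀ x : G, x + x + x = 0) {A B : Finset G} (h0 : (0 : G) ∈ B) (hBA : B ⊆ A)
    (hA : ∀ a ∈ A, ∀ a' ∈ A, ∀ b ∈ B, a + a' + b = 0 → a = b) :
    A.card + B.card ≤ (rsum A B).card + 3 := by
  classical
  by_cases hB2 : B.card ≤ 2
  · -- `A \ {0}` is contained in the restricted sumset
    have h1 : (A.erase 0).card ≤ (rsum A B).card := by
      refine card_le_card fun x hx => ?_
      rw [mem_erase] at hx
      exact mem_rsum.2 ⟨x, hx.2, 0, h0, hx.1, add_zero x⟩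
    have h2 := card_erase_add_one (hBA h0)
    omega
  · push Not at hB2
    -- two independent elements of `B`
    obtain ⟨e₁, he₁, h1⟩ : ∃ e ∈ B, e ≠ 0 := by
      by_contra hcon
      push Not at hcon
      have : B ⊆ {0} := fun x hx => mem_singleton.2 (hcon x hx)
      have := card_le_card this
      rw [card_singleton] at this
      omega
    obtain ⟨e₂, he₂, h2, h12⟩ : ∃ e ∈ B, e ≠ 0 ∧ e₁ ≠ e := by
      by_contra hcon
      push Not at hcon
      have : B ⊆ {0, e₁} := fun x hx => by
        rw [mem_insert, mem_singleton]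
        by_cases hx0 : x = 0
        · exact Or.inl hx0
        · exact Or.inr (hcon x hx hx0).symm
      have := (card_le_card this).trans card_le_two
      omega
    obtain ⟨f, hf1, hf2⟩ := exists_functional h3 h1 h2 h12
    -- every class meets `B`
    have hcl : ∀ v : ZMod 3, ∃ b ∈ B, f b = v := by
      intro v
      have hv : v = 0 ∨ v = f e₁ ∨ v = - f e₁ := by
        revert hf1
        generalize f e₁ = c
        revert v c
        decide
      rcases hv with rfl | rfl | rfl
      · exact ⟨0, h0, map_zero f⟩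
      · exact ⟨e₁, he₁, rfl⟩
      · exact ⟨e₂, he₂, hf2⟩
    let P : Finset G → ZMod 3 → Finset G := fun X v => X.filter fun x => f x = v
    have hcard : ∀ X : Finset G, X.card = ∑ v : ZMod 3, (P X v).card := fun X =>
      card_eq_sum_card_fiberwise (fun x _ => mem_univ (f x))
    have hpart : ∀ v : ZMod 3,
        (P A v).card + (P B (v + 1)).card ≤ (P A v + P B (v + 1)).card + 1 := by
      intro v
      obtain ⟨b₁, hb₁, hv₁⟩ := hcl v
      obtain ⟨b₂, hb₂, hv₂⟩ := hcl (v + 1)
      exact part h3 hBA hA (filter_subset _ _) (filter_subset _ _)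
        (mem_filter.2 ⟨hBA hb₁, hv₁⟩) hb₁ (mem_filter.2 ⟨hb₂, hv₂⟩)
    have hsub : ∑ v : ZMod 3, (P A v + P B (v + 1)).card ≤ (rsum A B).card := by
      have hin : ∀ v : ZMod 3, P A v + P B (v + 1) ⊆ P (rsum A B) (v + (v + 1)) := by
        intro v x hx
        obtain ⟨a, ha, b, hb, rfl⟩ := mem_add.1 hx
        rw [mem_filter] at ha hb
        refine mem_filter.2 ⟨mem_rsum.2 ⟨a, ha.1, b, hb.1, ?_, rfl⟩, ?_⟩
        · rintro rfl
          have h : ∀ v : ZMod 3, v ≠ v + 1 := by decide
          exact h v (ha.2.symm.trans hb.2)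
        · rw [map_add, ha.2, hb.2]
      have hbij : ∑ v : ZMod 3, (P (rsum A B) (v + (v + 1))).card = (rsum A B).card := by
        rw [hcard (rsum A B)]
        refine Function.Bijective.sum_comp (e := fun v : ZMod 3 => v + (v + 1)) ?_
          (fun v => (P (rsum A B) v).card)
        decide
      rw [← hbij]
      exact sum_le_sum fun v _ => card_le_card (hin v)
    have hB1 : ∑ v : ZMod 3, (P B (v + 1)).card = B.card := by
      rw [hcard B]
      exact Fintype.sum_equiv (Equiv.addRight (1 : ZMod 3)) _ _ fun v => rfl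
    have htot : ∑ v : ZMod 3, ((P A v).card + (P B (v + 1)).card) ≤
        ∑ v : ZMod 3, ((P A v + P B (v + 1)).card + 1) := sum_le_sum fun v _ => hpart v
    rw [sum_add_distrib, sum_add_distrib, hB1, ← hcard A, sum_const, card_univ, ZMod.card] at htot
    simp only [smul_eq_mul, mul_one] at htot
    omega

/-- The restricted sumset of a pair `A`, `B` with `A ∩ (-B) = {0}`, finite groups. -/
theorem finite_case (h3 : ∀ x : G, x + x + x = 0) {A B : Finset G}
    (hadm : ∀ x, (x ∈ A ∧ -x ∈ B) ↔ x = 0) : A.card + B.card ≤ (rsum A B).card + 3 := by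
  classical
  have h0A : (0 : G) ∈ A := ((hadm 0).2 rfl).1
  have h0B : (0 : G) ∈ B := by
    have := ((hadm 0).2 rfl).2
    rwa [neg_zero] at this
  let D : Finset G := univ.filter fun d => -d ∉ rsum A B
  -- the three sets
  have key : ∀ a ∈ A, ∀ b ∈ B, ∀ d ∈ D, a + b + d = 0 → a = b ∧ b = d := by
    intro a ha b hb d hd h
    have hd' : -d ∉ rsum A B := (mem_filter.1 hd).2
    have hab : a = b := by
      by_contra hne
      exact hd' (mem_rsum.2 ⟨a, ha, b, hb, hne, eq_neg_of_add_eq_zero_left h⟩)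
    subst hab
    refine ⟨rfl, ?_⟩
    have h' := h3 a
    exact add_left_cancel (h'.trans h.symm)
  have h0D : (0 : G) ∈ D := by
    refine mem_filter.2 ⟨mem_univ _, fun hcon => ?_⟩
    obtain ⟨a, ha, b, hb, hne, hab⟩ := mem_rsum.1 hcon
    rw [neg_zero] at hab
    have hb' : b = -a := eq_neg_of_add_eq_zero_right hab
    have ha0 : a = 0 := (hadm a).1 ⟨ha, hb' ▸ hb⟩
    rw [ha0, neg_zero] at hb'
    exact hne (ha0.trans hb'.symm)
  let T : Finset G := (A ∩ B) ∩ ((A ∪ B) ∩ D)
  let U : Finset G := (A ∩ B) ∪ ((A ∪ B) ∩ D)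
  let W : Finset G := (A ∪ B) ∪ D
  have hT : ∀ x ∈ T, x ∈ A ∧ x ∈ B ∧ x ∈ D := by
    intro x hx
    simp only [T, mem_inter, mem_union] at hx
    exact ⟨hx.1.1, hx.1.2, hx.2.2⟩
  have hU : ∀ x ∈ U, (x ∈ A ∧ x ∈ B) ∨ (x ∈ A ∧ x ∈ D) ∨ (x ∈ B ∧ x ∈ D) := by
    intro x hx
    simp only [U, mem_inter, mem_union] at hx
    tauto
  have hUW : U ⊆ W := by
    intro x hx
    simp only [W, mem_union]
    have := hU x hx
    tauto
  have hTU : T ⊆ U := inter_subset_left.trans subset_union_left
  have h0T : (0 : G) ∈ T := by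
    simp only [T, mem_inter, mem_union]
    exact ⟨⟨h0A, h0B⟩, Or.inl h0A, h0D⟩
  -- mirror images are in none of the three sets
  have hout : ∀ x ∈ U, ∀ t ∈ T, x ≠ t → -(x + t) ∉ W := by
    intro x hx t ht hne hcon
    obtain ⟨tA, tB, tD⟩ := hT t ht
    simp only [W, mem_union] at hcon
    rcases hcon with (hy | hy) | hy
    · rcases hU x hx with h | h | h
      · exact hne (key _ hy x h.2 t tD (by abel)).2
      · exact hne (key _ hy t tB x h.2 (by abel)).2.symm
      · exact hne (key _ hy x h.1 t tD (by abel)).2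
    · rcases hU x hx with h | h | h
      · have := key x h.1 _ hy t tD (by abel)
        exact hne (this.1.trans this.2)
      · have := key x h.1 _ hy t tD (by abel)
        exact hne (this.1.trans this.2)
      · have := key t tA _ hy x h.2 (by abel)
        exact hne (this.1.trans this.2).symm
    · rcases hU x hx with h | h | h
      · exact hne (key x h.1 t tB _ hy (by abel)).1
      · exact hne (key x h.1 t tB _ hy (by abel)).1
      · exact hne (key t tA x h.1 _ hy (by abel)).1.symm
  have hsp := special h3 h0T hTU (fun a ha a' ha' b hb h => by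
    by_contra hne
    refine hout a ha b hb hne ?_
    have : -(a + b) = a' := by
      rw [neg_eq_iff_add_eq_zero]
      rw [← h]
      abel
    rw [this]
    exact hUW ha')
  have hmir : (rsum U T).card ≤ Wᶜ.card := by
    refine card_le_card_of_injOn (fun x => -x) ?_ neg_injective.injOn
    intro x hx
    obtain ⟨a, ha, b, hb, hne, rfl⟩ := mem_rsum.1 (mem_coe.1 hx)
    rw [mem_coe, mem_compl]
    exact hout a ha b hb hne
  have hD : D.card + (rsum A B).card = Fintype.card G := by
    have h1 : (univ.filter fun d : G => -d ∈ rsum A B).card = (rsum A B).card := by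
      refine card_bij (fun d _ => -d) (fun d hd => (mem_filter.1 hd).2)
        (fun a _ b _ h => neg_injective h) fun b hb => ?_
      exact ⟨-b, mem_filter.2 ⟨mem_univ _, by rwa [neg_neg]⟩, neg_neg b⟩
    have h2 := card_filter_add_card_filter_not (s := (univ : Finset G))
      (fun d => -d ∈ rsum A B)
    rw [h1, card_univ] at h2
    rw [← h2, add_comm]
  have hW : W.card + Wᶜ.card = Fintype.card G := card_add_card_compl W
  have e1 := card_union_add_card_inter A B
  have e2 := card_union_add_card_inter (A ∪ B) D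
  have e3 := card_union_add_card_inter (A ∩ B) ((A ∪ B) ∩ D)
  change W.card + _ = _ at e2
  change U.card + T.card = _ at e3
  omega

end fin

/-- The restricted sumset of a pair `A`, `B` with `A ∩ (-B) = {0}` in a group of exponent three. -/
theorem main (h3 : ∀ x : G, x + x + x = 0) {A B : Finset G}
    (hadm : ∀ x, (x ∈ A ∧ -x ∈ B) ↔ x = 0) : A.card + B.card ≤ (rsum A B).card + 3 := by
  classical
  let K : AddSubgroup G := AddSubgroup.closure ((A ∪ B : Finset G) : Set G)
  have hAK : ∀ x ∈ A, x ∈ K := fun x hx =>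
    AddSubgroup.subset_closure (by simp [hx])
  have hBK : ∀ x ∈ B, x ∈ K := fun x hx =>
    AddSubgroup.subset_closure (by simp [hx])
  have hfg : AddGroup.FG K := (AddGroup.fg_iff_addSubgroup_fg K).2 ⟨A ∪ B, rfl⟩
  have htor : IsAddTorsion K := by
    intro x
    rw [isOfFinAddOrder_iff_nsmul_eq_zero]
    refine ⟨3, by norm_num, ?_⟩
    apply Subtype.ext
    have := h3 (x : G)
    rw [AddSubgroup.coe_nsmul, AddSubgroup.coe_zero, succ_nsmul, two_nsmul, this]
  have hfin : Finite K := AddCommGroup.finite_of_fg_isAddTorsion K htor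
  have : Fintype K := Fintype.ofFinite K
  have h3' : ∀ x : K, x + x + x = 0 := fun x => Subtype.ext (h3 (x : G))
  have hcase := finite_case (G := K) h3' (A := A.subtype (· ∈ K)) (B := B.subtype (· ∈ K))
    (fun x => by
      rw [mem_subtype, mem_subtype]
      rw [show ((-x : K) : G) = -(x : G) from rfl, hadm (x : G)]
      exact ⟨fun h => Subtype.ext h, fun h => by rw [h]; rfl⟩)
  have hA : (A.subtype (· ∈ K)).card = A.card := by
    rw [card_subtype, filter_true_of_mem hAK]
  have hB : (B.subtype (· ∈ K)).card = B.card := by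
    rw [card_subtype, filter_true_of_mem hBK]
  have hS : (rsum (A.subtype (· ∈ K)) (B.subtype (· ∈ K))).card ≤ (rsum A B).card := by
    refine card_le_card_of_injOn (fun x : K => (x : G)) ?_ Subtype.val_injective.injOn
    intro x hx
    obtain ⟨a, ha, b, hb, hne, rfl⟩ := mem_rsum.1 (mem_coe.1 hx)
    rw [mem_subtype] at ha hb
    rw [mem_coe]
    exact mem_rsum.2 ⟨a, ha, b, hb, fun h => hne (Subtype.ext h), rfl⟩
  omega

end Pool.Agent.Q114.RS
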